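import Pool.Agent.QUD.StmtsR

/-! Row CGR of squad QUD: congruence is an equivalence relation. -/

namespace Pool.Agent.QUD.H33

open Pool.Agent.QUD Pool.Agent.H16Iso

theorem cgr : CgrStmt := by
  refine ⟨fun P => ⟨IsometryEquiv.refl ℂ, ?_⟩, ?_, ?_⟩
  · ext x
    constructor
    · rintro ⟨y, hy, rfl⟩
      exact hy
    · intro hx
      exact ⟨x, hx, rfl⟩
  · rintro P Q ⟨g, hg⟩
    refine ⟨g.symm, ?_⟩
    rw [← hg, ← Set.image_comp]
    ext x
    simp
  · rintro P Q R ⟨g, hg⟩ ⟨h, hh⟩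
    refine ⟨g.trans h, ?_⟩
    rw [← hh, ← hg, ← Set.image_comp]
    ext x
    simp

end Pool.Agent.QUD.H33
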