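import Mathlib

/-!
# Squad QUD, row HCX (helper33), first part

Strict convexity of `u cos (π / (2u)) / ((u - 1) sin (π / (2u)))` on `(1, ∞)`: partial fractions of the cotangent and exact
convexity defects.  `cot_hasSum` and `tele` are copied from `Helper94_QUD/HMO.lean`.
-/

set_option autoImplicit false

namespace Pool.Agent.QUD.H33X

open Filter Topology

/-- the cotangent series over the reals (copy of `Pool.Agent.QUD.H94.cot_hasSum`) -/
theorem cot_hasSum {t : ℝ} (h0 : 0 < t) (h1 : t < 1) :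
    HasSum (fun n : ℕ => 1 / (t - (n + 1)) + 1 / (t + (n + 1)))
      (Real.pi * (Real.cos (Real.pi * t) / Real.sin (Real.pi * t)) - 1 / t) := by
  have hz : (t : ℂ) ∈ Complex.integerComplement := by
    rw [Complex.integerComplement]
    rintro ⟨m, hm⟩
    have hm' : (m : ℝ) = t := by exact_mod_cast hm
    have h2 : (0 : ℝ) < m := by rw [hm']; exact h0
    have h3 : (m : ℝ) < 1 := by rw [hm']; exact h1
    have h4 : (0 : ℤ) < m := by exact_mod_cast h2
    have h5 : m < 1 := by exact_mod_cast h3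
    omega
  have hs := (summable_cotTerm hz).hasSum
  have he := cot_series_rep' hz
  have hs' : HasSum (fun n : ℕ => 1 / ((t : ℂ) - (n + 1)) + 1 / ((t : ℂ) + (n + 1)))
      (Real.pi * Complex.cot (Real.pi * t) - 1 / t) := by
    rw [he]
    exact hs
  rw [← Complex.hasSum_ofReal]
  have e1 : (((Real.pi * (Real.cos (Real.pi * t) / Real.sin (Real.pi * t)) - 1 / t : ℝ)) : ℂ)
      = Real.pi * Complex.cot (Real.pi * t) - 1 / t := by
    rw [Complex.cot]
    push_cast
    rfl
  rw [e1]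
  have e2 : (fun n : ℕ => ((1 / (t - (n + 1)) + 1 / (t + (n + 1)) : ℝ) : ℂ))
      = fun n : ℕ => 1 / ((t : ℂ) - (n + 1)) + 1 / ((t : ℂ) + (n + 1)) := by
    funext n
    push_cast
    rfl
  rw [e2]
  exact hs'

/-- telescoping (copy of `Pool.Agent.QUD.H94.tele`) -/
theorem tele (a : ℝ) (ha : 0 < a) :
    HasSum (fun n : ℕ => 1 / (n + a) - 1 / (n + a + 1)) (1 / a) := by
  have h1 : ∀ n : ℕ, ∑ i ∈ Finset.range n, (1 / ((i : ℝ) + a) - 1 / (i + a + 1))
      = 1 / a - 1 / (n + a) := by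
    intro n
    induction n with
    | zero => simp
    | succ k ih =>
      rw [Finset.sum_range_succ, ih]
      push_cast
      ring
  rw [hasSum_iff_tendsto_nat_of_nonneg]
  · simp_rw [h1]
    have h2 : Tendsto (fun n : ℕ => 1 / ((n : ℝ) + a)) atTop (𝓝 0) := by
      simp_rw [one_div]
      apply tendsto_inv_atTop_zero.comp
      exact tendsto_atTop_add_const_right _ _ tendsto_natCast_atTop_atTop
    simpa using h2.const_sub (1 / a)
  · intro i
    have : (0 : ℝ) ≤ i := Nat.cast_nonneg i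
    rw [sub_nonneg]
    apply one_div_le_one_div_of_le <;> linarith

/-- the terms -/
noncomputable def psi (n : ℕ) (u : ℝ) : ℝ := 1 / ((n + 1 / (2 * u)) * (n + 1 - 1 / (2 * u)))

theorem hasSum_psi {u : ℝ} (hu : 1 < u) :
    HasSum (fun n : ℕ => psi n u)
      (Real.pi * (u * Real.cos (Real.pi / (2 * u)) / ((u - 1) * Real.sin (Real.pi / (2 * u))))) := by
  have hu0 : (0 : ℝ) < u := by linarith
  set t : ℝ := 1 / (2 * u) with ht
  have t0 : 0 < t := by positivity
  have t1 : t < 1 / 2 := by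
    rw [ht, div_lt_div_iff₀ (by positivity) (by norm_num)]
    linarith
  have h := (cot_hasSum t0 (by linarith)).add (tele t t0)
  have h' := h.mul_left (u / (u - 1))
  have e1 : ∀ n : ℕ, u / (u - 1) * (1 / (t - (n + 1)) + 1 / (t + (n + 1)) +
      (1 / (n + t) - 1 / (n + t + 1))) = psi n u := by
    intro n
    have hn : (0 : ℝ) ≤ n := Nat.cast_nonneg n
    have a1 : (n : ℝ) + 1 - t ≠ 0 := by intro hh; linarith
    have a2 : (n : ℝ) + t ≠ 0 := by intro hh; linarith
    have a3 : (n : ℝ) + t + 1 ≠ 0 := by intro hh; linarith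
    have b1 : 1 / (t - (n + 1)) = - (1 / (n + 1 - t)) := by
      rw [show t - ((n : ℝ) + 1) = -(n + 1 - t) by ring, one_div_neg_eq_neg_one_div]
    have b2 : t + ((n : ℝ) + 1) = n + t + 1 := by ring
    have e : 1 / (t - ((n : ℝ) + 1)) + 1 / (t + (n + 1)) + (1 / (n + t) - 1 / (n + t + 1))
        = (1 - 2 * t) * (1 / ((n + t) * (n + 1 - t))) := by
      rw [b1, b2]
      have : -(1 / ((n : ℝ) + 1 - t)) + 1 / (n + t + 1) + (1 / (n + t) - 1 / (n + t + 1))
          = 1 / (n + t) - 1 / (n + 1 - t) := by ring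
      rw [this, div_sub_div _ _ a2 a1]
      rw [mul_one_div]
      congr 1
      ring
    rw [e, psi, ← ht, ← mul_assoc]
    have hu1 : u - 1 ≠ 0 := by intro hh; linarith
    have : u / (u - 1) * (1 - 2 * t) = 1 := by
      rw [ht]
      field_simp
    rw [this, one_mul]
  have e2 : u / (u - 1) * (Real.pi * (Real.cos (Real.pi * t) / Real.sin (Real.pi * t)) - 1 / t + 1 / t)
      = Real.pi * (u * Real.cos (Real.pi / (2 * u)) / ((u - 1) * Real.sin (Real.pi / (2 * u)))) := by
    have : Real.pi * t = Real.pi / (2 * u) := by rw [ht]; ring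
    rw [this, sub_add_cancel, mul_div_mul_comm]
    ring
  rw [e2] at h'
  have e3 : (fun n : ℕ => psi n u) = fun n : ℕ => u / (u - 1) * (1 / (t - (n + 1)) + 1 / (t + (n + 1)) +
      (1 / (n + t) - 1 / (n + t + 1))) := by
    funext n
    exact (e1 n).symm
  rw [e3]
  exact h'

/-- the defect of convexity of `1 / X` -/
theorem defect {a b X Y : ℝ} (hab : a + b = 1) (hX : 0 < X) (hY : 0 < Y) (ha : 0 < a)
    (hb : 0 < b) :
    a * (1 / X) + b * (1 / Y) - 1 / (a * X + b * Y)
      = a * b * (X - Y) ^ 2 / (X * Y * (a * X + b * Y)) := by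
  have hZ : 0 < a * X + b * Y := by positivity
  have hb' : b = 1 - a := by linarith
  have hZ' : a * X + b * Y ≠ 0 := hZ.ne'
  rw [mul_one_div, mul_one_div, div_add_div _ _ hX.ne' hY.ne', div_sub_div _ _ (by positivity) hZ',
    div_left_inj' (by positivity)]
  subst hb'
  ring

theorem psi_zero {u : ℝ} (hu : 1 < u) : psi 0 u = 2 * u + 1 + 1 / (2 * u - 1) := by
  have h1 : (2 : ℝ) * u - 1 ≠ 0 := by intro h; linarith
  have h2 : u ≠ 0 := by intro h; linarith
  rw [psi]
  have e : ((0 : ℕ) : ℝ) + 1 / (2 * u) = 1 / (2 * u) := by simp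
  have e' : ((0 : ℕ) : ℝ) + 1 - 1 / (2 * u) = (2 * u - 1) / (2 * u) := by
    rw [Nat.cast_zero, zero_add]
    field_simp
  rw [e, e']
  field_simp
  ring

theorem psi_succ (m : ℕ) {u : ℝ} (hu : 1 < u) {A B : ℝ} (hA : A = 2 * (m + 1))
    (hB : B = A + 2) : psi (m + 1) u
      = 4 / (A * B) - 4 / (A * (A + B)) * (1 / (A * u + 1))
        + 4 / (B * (A + B)) * (1 / (B * u - 1)) := by
  have hm : (0 : ℝ) ≤ m := Nat.cast_nonneg m
  have hA0 : 0 < A := by rw [hA]; positivity
  have hB0 : 0 < B := by rw [hB]; linarith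
  have h1 : A * u + 1 ≠ 0 := by positivity
  have h2 : 0 < B * u - 1 := by
    have : B * 1 < B * u := mul_lt_mul_of_pos_left hu hB0
    linarith
  have hu0 : u ≠ 0 := by intro h; linarith
  have e1 : ((m + 1 : ℕ) : ℝ) + 1 / (2 * u) = (A * u + 1) / (2 * u) := by
    rw [hA]
    push_cast
    field_simp
  have e2 : ((m + 1 : ℕ) : ℝ) + 1 - 1 / (2 * u) = (B * u - 1) / (2 * u) := by
    rw [hB, hA]
    push_cast
    field_simp
  rw [psi, e1, e2]
  have h3 := h2.ne'
  have hAB : A + B ≠ 0 := by positivity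
  have hA1 := hA0.ne'
  have hB1 := hB0.ne'
  rw [div_mul_div_comm, one_div_div]
  rw [show 4 / (A * B) - 4 / (A * (A + B)) * (1 / (A * u + 1)) + 4 / (B * (A + B)) * (1 / (B * u - 1))
      = (4 * (A + B) * (A * u + 1) * (B * u - 1) - 4 * B * (B * u - 1) + 4 * A * (A * u + 1))
        / (A * B * (A + B) * ((A * u + 1) * (B * u - 1))) by
      field_simp]
  rw [div_eq_div_iff (by positivity) (by positivity)]
  rw [hB]
  ring

/-- the first term is strictly convex, with the exact defect -/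
theorem defect_zero {a b x y : ℝ} (ha : 0 < a) (hb : 0 < b) (hab : a + b = 1) (hx : 1 < x)
    (hy : 1 < y) (hz : 1 < a * x + b * y) :
    a * psi 0 x + b * psi 0 y - psi 0 (a * x + b * y)
      = 4 * (a * b * (x - y) ^ 2) / ((2 * x - 1) * (2 * y - 1) * (2 * (a * x + b * y) - 1)) := by
  rw [psi_zero hx, psi_zero hy, psi_zero hz]
  have h := defect (X := 2 * x - 1) (Y := 2 * y - 1) hab (by linarith) (by linarith) ha hb
  have e : a * (2 * x - 1) + b * (2 * y - 1) = 2 * (a * x + b * y) - 1 := by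
    linear_combination (-1 : ℝ) * hab
  rw [e] at h
  have e2 : a * b * (2 * x - 1 - (2 * y - 1)) ^ 2 = 4 * (a * b * (x - y) ^ 2) := by ring
  rw [e2] at h
  rw [← h]
  linear_combination hab

/-- the other terms: the defect is not much negative -/
theorem defect_succ (m : ℕ) {a b x y : ℝ} (ha : 0 < a) (hb : 0 < b) (hab : a + b = 1)
    (hx : 1 < x) (hy : 1 < y) (hz : 1 < a * x + b * y) :
    -(2 / 3) * (a * psi 0 x + b * psi 0 y - psi 0 (a * x + b * y))
        * (1 / ((m : ℝ) + 1) - 1 / ((m : ℝ) + 1 + 1))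
      ≤ a * psi (m + 1) x + b * psi (m + 1) y - psi (m + 1) (a * x + b * y) := by
  have hm : (0 : ℝ) ≤ m := Nat.cast_nonneg m
  rw [defect_zero ha hb hab hx hy hz]
  set z : ℝ := a * x + b * y with hzd
  set A : ℝ := 2 * ((m : ℝ) + 1) with hA
  set B : ℝ := A + 2 with hB
  have hA2 : 2 ≤ A := by rw [hA]; linarith
  have hA0 : 0 < A := by linarith
  have hB0 : 0 < B := by rw [hB]; linarith
  rw [psi_succ m hx hA hB, psi_succ m hy hA hB, psi_succ m hz hA hB]
  have h1 := defect (X := A * x + 1) (Y := A * y + 1) hab (by positivity) (by positivity) ha hb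
  have e1 : a * (A * x + 1) + b * (A * y + 1) = A * z + 1 := by
    rw [hzd]; linear_combination hab
  rw [e1] at h1
  have hBx : 0 < B * x - 1 := by nlinarith
  have hBy : 0 < B * y - 1 := by nlinarith
  have hBz : 0 < B * z - 1 := by nlinarith
  have h2 := defect (X := B * x - 1) (Y := B * y - 1) hab hBx hBy ha hb
  have e2 : a * (B * x - 1) + b * (B * y - 1) = B * z - 1 := by
    rw [hzd]; linear_combination (-1 : ℝ) * hab
  rw [e2] at h2
  have h3 : 0 ≤ a * b * (B * x - 1 - (B * y - 1)) ^ 2 / ((B * x - 1) * (B * y - 1) * (B * z - 1)) := by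
    positivity
  rw [← h2] at h3
  -- the positive part
  have h4 : a * (4 / (A * B) - 4 / (A * (A + B)) * (1 / (A * x + 1))
        + 4 / (B * (A + B)) * (1 / (B * x - 1)))
      + b * (4 / (A * B) - 4 / (A * (A + B)) * (1 / (A * y + 1))
        + 4 / (B * (A + B)) * (1 / (B * y - 1)))
      - (4 / (A * B) - 4 / (A * (A + B)) * (1 / (A * z + 1))
        + 4 / (B * (A + B)) * (1 / (B * z - 1)))
      = - (4 / (A * (A + B)) * (a * (1 / (A * x + 1)) + b * (1 / (A * y + 1)) - 1 / (A * z + 1)))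
        + 4 / (B * (A + B)) * (a * (1 / (B * x - 1)) + b * (1 / (B * y - 1)) - 1 / (B * z - 1)) := by
    linear_combination (4 / (A * B)) * hab
  rw [h4, h1]
  have h5 : 0 ≤ 4 / (B * (A + B)) * (a * (1 / (B * x - 1)) + b * (1 / (B * y - 1)) - 1 / (B * z - 1)) := by
    apply mul_nonneg _ h3
    positivity
  -- the comparison
  set Q : ℝ := a * b * (x - y) ^ 2 with hQ
  have hQ0 : 0 ≤ Q := by positivity
  have e3 : a * b * (A * x + 1 - (A * y + 1)) ^ 2 = A ^ 2 * Q := by rw [hQ]; ring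
  rw [e3]
  have hx1 : 0 < 2 * x - 1 := by linarith
  have hy1 : 0 < 2 * y - 1 := by linarith
  have hz1 : 0 < 2 * z - 1 := by linarith
  have k1 : A / 2 * (2 * x - 1) ≤ A * x + 1 := by nlinarith
  have k2 : A / 2 * (2 * y - 1) ≤ A * y + 1 := by nlinarith
  have k3 : A / 2 * (2 * z - 1) ≤ A * z + 1 := by nlinarith
  have k4 : A ^ 3 / 8 * ((2 * x - 1) * (2 * y - 1) * (2 * z - 1))
      ≤ (A * x + 1) * (A * y + 1) * (A * z + 1) := by
    calc A ^ 3 / 8 * ((2 * x - 1) * (2 * y - 1) * (2 * z - 1))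
        = (A / 2 * (2 * x - 1)) * (A / 2 * (2 * y - 1)) * (A / 2 * (2 * z - 1)) := by ring
      _ ≤ _ := by
        apply mul_le_mul _ k3 (by positivity) (by positivity)
        exact mul_le_mul k1 k2 (by positivity) (by positivity)
  have k5 : A ^ 2 * Q / ((A * x + 1) * (A * y + 1) * (A * z + 1))
      ≤ A ^ 2 * Q / (A ^ 3 / 8 * ((2 * x - 1) * (2 * y - 1) * (2 * z - 1))) :=
    div_le_div_of_nonneg_left (by positivity) (by positivity) k4
  set P : ℝ := (2 * x - 1) * (2 * y - 1) * (2 * z - 1) with hP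
  have hP0 : 0 < P := by positivity
  have k6 : 4 / (A * (A + B)) * (A ^ 2 * Q / (A ^ 3 / 8 * P))
      ≤ 2 / 3 * (4 * Q / P) * (1 / ((m : ℝ) + 1) - 1 / ((m : ℝ) + 1 + 1)) := by
    have e4 : 4 / (A * (A + B)) * (A ^ 2 * Q / (A ^ 3 / 8 * P))
        = (4 * Q / P) * (8 / (A ^ 2 * (A + B))) := by
      field_simp
    have e5 : 1 / ((m : ℝ) + 1) - 1 / ((m : ℝ) + 1 + 1) = 4 / (A * B) := by
      rw [hB, hA]
      have q1 : (m : ℝ) + 1 ≠ 0 := by positivity
      have q2 : (m : ℝ) + 1 + 1 ≠ 0 := by positivity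
      rw [div_sub_div _ _ q1 q2, div_eq_div_iff (by positivity) (by positivity)]
      ring
    rw [e4, e5]
    have k7 : 8 / (A ^ 2 * (A + B)) ≤ 2 / 3 * (4 / (A * B)) := by
      rw [mul_div_assoc', div_le_div_iff₀ (by positivity) (by positivity)]
      rw [hB]
      nlinarith [mul_nonneg hA0.le (mul_nonneg hA0.le (sub_nonneg.mpr hA2)), mul_pos hA0 hA0,
        mul_nonneg hA0.le (sub_nonneg.mpr hA2)]
    calc (4 * Q / P) * (8 / (A ^ 2 * (A + B))) ≤ (4 * Q / P) * (2 / 3 * (4 / (A * B))) :=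
          mul_le_mul_of_nonneg_left k7 (by positivity)
      _ = _ := by ring
  have k8 : 4 / (A * (A + B)) * (A ^ 2 * Q / ((A * x + 1) * (A * y + 1) * (A * z + 1)))
      ≤ 4 / (A * (A + B)) * (A ^ 2 * Q / (A ^ 3 / 8 * P)) :=
    mul_le_mul_of_nonneg_left k5 (by positivity)
  have k9 := k8.trans k6
  have k10 : -(2 / 3) * (4 * Q / P) * (1 / ((m : ℝ) + 1) - 1 / ((m : ℝ) + 1 + 1))
      = - (2 / 3 * (4 * Q / P) * (1 / ((m : ℝ) + 1) - 1 / ((m : ℝ) + 1 + 1))) := by ring
  rw [k10]
  linarith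

theorem hcx_core : StrictConvexOn ℝ (Set.Ioi (1 : ℝ)) fun u =>
    u * Real.cos (Real.pi / (2 * u)) / ((u - 1) * Real.sin (Real.pi / (2 * u))) := by
  refine ⟨convex_Ioi 1, ?_⟩
  intro x hx y hy hxy a b ha hb hab
  simp only [smul_eq_mul]
  rw [Set.mem_Ioi] at hx hy
  have hz : 1 < a * x + b * y := by
    have h1 : a * 1 < a * x := mul_lt_mul_of_pos_left hx ha
    have h2 : b * 1 < b * y := mul_lt_mul_of_pos_left hy hb
    linarith
  have hS := (((hasSum_psi hx).mul_left a).add ((hasSum_psi hy).mul_left b)).sub (hasSum_psi hz)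
  rw [← hasSum_nat_add_iff' 1] at hS
  rw [Finset.sum_range_one] at hS
  have hT := (tele 1 one_pos).mul_left
    (-(2 / 3) * (a * psi 0 x + b * psi 0 y - psi 0 (a * x + b * y)))
  have hle := hasSum_le (fun m => defect_succ m ha hb hab hx hy hz) hT hS
  have h0 : 0 < a * psi 0 x + b * psi 0 y - psi 0 (a * x + b * y) := by
    rw [defect_zero ha hb hab hx hy hz]
    have hx1 : 0 < 2 * x - 1 := by linarith
    have hy1 : 0 < 2 * y - 1 := by linarith
    have hz1 : 0 < 2 * (a * x + b * y) - 1 := by linarith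
    have hd : 0 < (x - y) ^ 2 := by
      have : x - y ≠ 0 := sub_ne_zero.mpr hxy
      positivity
    positivity
  have hpi := Real.pi_pos
  have h1 : 0 < Real.pi * (a * (x * Real.cos (Real.pi / (2 * x)) / ((x - 1) * Real.sin (Real.pi / (2 * x))))
      + b * (y * Real.cos (Real.pi / (2 * y)) / ((y - 1) * Real.sin (Real.pi / (2 * y))))
      - (a * x + b * y) * Real.cos (Real.pi / (2 * (a * x + b * y)))
        / ((a * x + b * y - 1) * Real.sin (Real.pi / (2 * (a * x + b * y))))) := by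
    have e : Real.pi * (a * (x * Real.cos (Real.pi / (2 * x)) / ((x - 1) * Real.sin (Real.pi / (2 * x))))
      + b * (y * Real.cos (Real.pi / (2 * y)) / ((y - 1) * Real.sin (Real.pi / (2 * y))))
      - (a * x + b * y) * Real.cos (Real.pi / (2 * (a * x + b * y)))
        / ((a * x + b * y - 1) * Real.sin (Real.pi / (2 * (a * x + b * y)))))
      = a * (Real.pi * (x * Real.cos (Real.pi / (2 * x)) / ((x - 1) * Real.sin (Real.pi / (2 * x)))))
      + b * (Real.pi * (y * Real.cos (Real.pi / (2 * y)) / ((y - 1) * Real.sin (Real.pi / (2 * y)))))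
      - Real.pi * ((a * x + b * y) * Real.cos (Real.pi / (2 * (a * x + b * y)))
        / ((a * x + b * y - 1) * Real.sin (Real.pi / (2 * (a * x + b * y))))) := by ring
    rw [e]
    linarith
  have h2 := (pos_iff_pos_of_mul_pos h1).mp hpi
  linarith

end Pool.Agent.QUD.H33X
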