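import Pool.Agent.QUD.StmtsX
import Pool.Agent.Helper33_QUD.HCXa

/-!
# Squad QUD, row HCX (helper33)
-/

set_option autoImplicit false

namespace Pool.Agent.QUD.H33X

theorem hcx : Pool.Agent.QUD.HcxStmt := hcx_core

end Pool.Agent.QUD.H33X
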